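import Pool.Agent.TH340.SH.Tg

/-!
Stability of eigenvalues of `S_h` under perturbations of `h` in the sup norm: the function part.
-/

set_option autoImplicit false

open MeasureTheory Set Filter Topology Metric

namespace Pool.Agent.Y549.OD.FUN

open Pool.Agent.Helper533.StarBox Pool.Agent.TH340.SH

variable {Ω : Set ℂ}

/-- the function form of an eigenvector of `S_g` -/
def Fun (Ω : Set ℂ) (g : ℂ → ℂ) (nu : ℂ) : Prop :=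
  ∃ f u : ℂ → ℂ, MemLp f 2 (volume.restrict Ω) ∧ (¬ f =ᵐ[volume.restrict Ω] 0) ∧
    MemLp u 2 (volume.restrict Ω) ∧
    (∀ χ : ℂ → ℂ, ContDiff ℝ (⊤ : ℕ∞) χ → HasCompactSupport χ → tsupport χ ⊆ Ω →
      ∫ z in Ω, u z * ((fderiv ℝ χ z 1 + Complex.I * fderiv ℝ χ z Complex.I) / 2) = - ∫ z in Ω, f z * χ z) ∧
    (∀ G : ℂ → ℂ, DifferentiableOn ℂ G Ω → MemLp G 2 (volume.restrict Ω) →
      ∫ z in Ω, u z * (starRingEnd ℂ) (G z) = 0) ∧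
    (fun z => (starRingEnd ℂ) (g z) * u z) =ᵐ[volume.restrict Ω] fun z => nu * f z

theorem prim_zero : Prim Ω (fun _ => 0) (fun _ => 0) := fun z _ => by
  refine ⟨differentiableAt_const 0, fun v => ?_⟩
  simp

theorem of_op (hΩ : IsOpen Ω) {L : L2 →L[ℝ] V Ω} (hL : Sol L) {g : ℂ → ℂ} (hg : DifferentiableOn ℂ g Ω)
    {K : ℝ} (hK0 : 0 ≤ K) (hK : ∀ z ∈ Ω, ‖g z‖ ≤ K) {nu : ℂ} (hnu : nu ≠ 0) {x : HC} (hx : x ≠ 0)
    (he : SH L hΩ hg hK0 hK x = nu • x) : Fun Ω g nu := by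
  have hae : ∀ᵐ z : ℂ, Ω.indicator (fun z => (starRingEnd ℂ) (g z)) z * (T1 L x : ℂ → ℂ) z =
      nu * (x : ℂ → ℂ) z := by
    have hg' : ((SH L hΩ hg hK0 hK x : HC) : ℂ → ℂ) =ᵐ[volume] ((nu • x : HC) : ℂ → ℂ) := by rw [he]
    filter_upwards [hg', SH_coe L hΩ hg hK0 hK x, Lp.coeFn_smul nu x] with z k1 k2 k3
    rw [k2, k3, Pi.smul_apply, smul_eq_mul] at k1
    exact k1
  refine ⟨x, T1 L x, (Lp.memLp x).restrict Ω, ?_, (Lp.memLp (T1 L x)).restrict Ω, ?_, ?_, ?_⟩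
  · intro h0
    apply hx
    apply Lp.ext
    have h0' := (ae_restrict_iff' hΩ.measurableSet).mp h0
    filter_upwards [hae, h0', Lp.coeFn_zero ℂ 2 (volume : Measure ℂ)] with z h3 h4 h5
    rw [h5]
    by_cases hz : z ∈ Ω
    · exact h4 hz
    · rw [indicator_of_notMem hz, zero_mul] at h3
      exact (mul_eq_zero.mp h3.symm).resolve_left hnu
  · intro χ hχ1 hχ2 hχ3
    have hχ : CT Ω χ := ⟨hχ1, hχ2, hχ3⟩
    have hw := T1_weak hL x hχ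
    have z1 : ∀ z, z ∉ Ω → χ z = 0 := fun z hz => image_eq_zero_of_notMem_tsupport fun h => hz (hχ3 h)
    have z2 : ∀ z, z ∉ Ω → fderiv ℝ χ z = 0 := fun z hz =>
      image_eq_zero_of_notMem_tsupport fun h => hz (hχ3 (tsupport_fderiv_subset ℝ h))
    rw [setIntegral_eq_integral_of_forall_compl_eq_zero (fun z hz => by rw [z2 z hz]; simp),
      setIntegral_eq_integral_of_forall_compl_eq_zero (fun z hz => by rw [z1 z hz]; simp)]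
    have e1 : ∫ z, (T1 L x : ℂ → ℂ) z * ((fderiv ℝ χ z 1 + Complex.I * fderiv ℝ χ z Complex.I) / 2) =
        ∫ z, 1 / 2 * ((T1 L x : ℂ → ℂ) z * (fderiv ℝ χ z 1 + Complex.I * fderiv ℝ χ z Complex.I)) := by
      congr 1; funext z; ring
    rw [e1, integral_const_mul, hw]; ring
  · intro G hG hGm
    have hd1 : DifferentiableOn ℂ (fun _ : ℂ => (0 : ℂ)) Ω := differentiableOn_const 0
    exact T1_orth hΩ hd1 le_rfl (fun z _ => by simp) prim_zero L x hG hGm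
  · rw [Filter.EventuallyEq, ae_restrict_iff' hΩ.measurableSet]
    filter_upwards [hae] with z hz hzΩ
    rw [indicator_of_mem hzΩ] at hz
    exact hz

theorem SH_sub_norm (hΩ : IsOpen Ω) (L : L2 →L[ℝ] V Ω) {g h : ℂ → ℂ} (hg : DifferentiableOn ℂ g Ω)
    (hh : DifferentiableOn ℂ h Ω) {K K' : ℝ} (hK0 : 0 ≤ K) (hK : ∀ z ∈ Ω, ‖g z‖ ≤ K)
    (hK0' : 0 ≤ K') (hK' : ∀ z ∈ Ω, ‖h z‖ ≤ K') {δ : ℝ} (hδ : 0 ≤ δ) (hgh : ∀ z ∈ Ω, ‖g z - h z‖ ≤ δ) :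
    ‖SH L hΩ hg hK0 hK - SH L hΩ hh hK0' hK'‖ ≤ δ * ‖T1 L‖ := by
  refine ContinuousLinearMap.opNorm_le_bound _ (mul_nonneg hδ (norm_nonneg _)) fun x => ?_
  have h1 : ‖SH L hΩ hg hK0 hK x - SH L hΩ hh hK0' hK' x‖ ≤ δ * ‖T1 L x‖ := by
    apply Lp.norm_le_mul_norm_of_ae_le_mul
    filter_upwards [SH_coe L hΩ hg hK0 hK x, SH_coe L hΩ hh hK0' hK' x,
      Lp.coeFn_sub (SH L hΩ hg hK0 hK x) (SH L hΩ hh hK0' hK' x)] with z k1 k2 k3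
    rw [k3, Pi.sub_apply, k1, k2, ← sub_mul, norm_mul]
    refine mul_le_mul_of_nonneg_right ?_ (norm_nonneg _)
    by_cases hz : z ∈ Ω
    · rw [indicator_of_mem hz, indicator_of_mem hz, ← map_sub, Complex.norm_conj]
      exact hgh z hz
    · rw [indicator_of_notMem hz, indicator_of_notMem hz, sub_zero, norm_zero]
      exact hδ
  calc ‖(SH L hΩ hg hK0 hK - SH L hΩ hh hK0' hK') x‖ ≤ δ * ‖T1 L x‖ := h1
    _ ≤ δ * (‖T1 L‖ * ‖x‖) := mul_le_mul_of_nonneg_left ((T1 L).le_opNorm x) hδ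
    _ = δ * ‖T1 L‖ * ‖x‖ := by ring

/-- stability at the level of functions, from stability at the level of operators -/
theorem stable_fun (hΩ : IsOpen Ω) {L : L2 →L[ℝ] V Ω} (hL : Sol L) (hLc : IsCompactOperator L)
    {h : ℂ → ℂ} (hh : DifferentiableOn ℂ h Ω) {Kh : ℝ} (hKh0 : 0 ≤ Kh) (hKh : ∀ z ∈ Ω, ‖h z‖ ≤ Kh)
    (hst : ∃ ε : ℝ, 0 < ε ∧ ∀ K : HC →L[ℂ] HC, IsCompactOperator K →
      ‖K - SH L hΩ hh hKh0 hKh‖ ≤ ε → ∃ nu : ℂ, nu ≠ 0 ∧ ∃ g : HC, g ≠ 0 ∧ K g = nu • g) :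
    ∃ δ : ℝ, 0 < δ ∧ ∀ g : ℂ → ℂ, DifferentiableOn ℂ g Ω → (∃ K : ℝ, ∀ z ∈ Ω, ‖g z‖ ≤ K) →
      (∀ z ∈ Ω, ‖g z - h z‖ ≤ δ) → ∃ nu : ℂ, nu ≠ 0 ∧ Fun Ω g nu := by
  obtain ⟨ε, hε, H⟩ := hst
  have hT : 0 < ‖T1 L‖ + 1 := by positivity
  refine ⟨ε / (‖T1 L‖ + 1), by positivity, fun g hg hgb hgh => ?_⟩
  obtain ⟨K, hK⟩ := hgb
  have hK' : ∀ z ∈ Ω, ‖g z‖ ≤ |K| := fun z hz => (hK z hz).trans (le_abs_self K)
  have hn : ‖SH L hΩ hg (abs_nonneg K) hK' - SH L hΩ hh hKh0 hKh‖ ≤ ε := by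
    refine (SH_sub_norm hΩ L hg hh (abs_nonneg K) hK' hKh0 hKh (by positivity) hgh).trans ?_
    rw [div_mul_eq_mul_div, div_le_iff₀ hT]
    nlinarith [norm_nonneg (T1 L)]
  obtain ⟨nu, hnu, x, hx, he⟩ := H _ (SH_compact hLc hΩ hg (abs_nonneg K) hK') hn
  exact ⟨nu, hnu, of_op hΩ hL hg (abs_nonneg K) hK' hnu hx he⟩

/-- the operators of a linear family, and their eigenvalues for almost every parameter -/
theorem generic_op (hΩ : IsOpen Ω)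
    {L : L2 →L[ℝ] V Ω} (hLc : IsCompactOperator L)
    {h : ℂ → ℂ} (hh : DifferentiableOn ℂ h Ω) {Kh : ℝ} (hKh0 : 0 ≤ Kh) (hKh : ∀ z ∈ Ω, ‖h z‖ ≤ Kh)
    {lam : ℂ} (hlam : lam ≠ 0) {f0 : HC} (hf0 : f0 ≠ 0) (he' : SH L hΩ hh hKh0 hKh f0 = lam • f0)
    {k : ℂ → ℂ} (hk : DifferentiableOn ℂ k Ω) {Kk : ℝ} (hKk0 : 0 ≤ Kk) (hKk : ∀ z ∈ Ω, ‖k z‖ ≤ Kk)
    {m : ℕ} {κ : Fin m → ℂ → ℂ} (hκ : ∀ j, DifferentiableOn ℂ (κ j) Ω) {Kj : Fin m → ℝ} (hKj0 : ∀ j, 0 ≤ Kj j)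
    (hKj : ∀ j, ∀ z ∈ Ω, ‖κ j z‖ ≤ Kj j) :
    ∀ᵐ p : (Fin m → ℂ) × ℂ, ∀ (hd : DifferentiableOn ℂ (fun z => k z + p.2 * h z + ∑ j, p.1 j * κ j z) Ω)
      (K : ℝ) (hK0 : 0 ≤ K) (hK : ∀ z ∈ Ω, ‖k z + p.2 * h z + ∑ j, p.1 j * κ j z‖ ≤ K),
      ∃ nu : ℂ, nu ≠ 0 ∧ ∃ g : HC, g ≠ 0 ∧ SH L hΩ hd hK0 hK g = nu • g := by
  set X : (Fin m → ℂ) → HC →L[ℂ] HC := fun η => SH L hΩ hk hKk0 hKk +
    ∑ j, (starRingEnd ℂ) (η j) • SH L hΩ (hκ j) (hKj0 j) (hKj j) with hX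
  have hXc : Continuous X := by
    refine continuous_const.add (continuous_finsetSum _ fun j _ => ?_)
    exact (Complex.continuous_conj.comp (continuous_apply j)).smul continuous_const
  have hcomp : ∀ p : (Fin m → ℂ) × ℂ,
      IsCompactOperator (X p.1 + (starRingEnd ℂ) p.2 • SH L hΩ hh hKh0 hKh) := by
    intro p
    refine ((SH_compact hLc hΩ hk hKk0 hKk).add (compact_sum _ _ _ fun j => ?_)).add
      ((SH_compact hLc hΩ hh hKh0 hKh).smul _)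
    exact SH_compact hLc hΩ (hκ j) (hKj0 j) (hKj j)
  have hgen := generic_prod (ν := (volume : Measure (Fin m → ℂ))) X hXc
    (S0 := SH L hΩ hh hKh0 hKh) hlam hf0 he' hcomp
  have hgen' : ∀ᵐ p : (Fin m → ℂ) × ℂ, ∃ nu : ℂ, nu ≠ 0 ∧ ∃ g : HC, g ≠ 0 ∧
      (X p.1 + (starRingEnd ℂ) p.2 • SH L hΩ hh hKh0 hKh) g = nu • g := hgen
  filter_upwards [hgen'] with p hpp hd K hK0 hK
  obtain ⟨nu, hnu, g, hg0, hg⟩ := hpp
  refine ⟨nu, hnu, g, hg0, ?_⟩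
  rw [← hg]
  have e : (X p.1 + (starRingEnd ℂ) p.2 • SH L hΩ hh hKh0 hKh) g = (SH L hΩ hk hKk0 hKk g +
      ∑ j, (starRingEnd ℂ) (p.1 j) • SH L hΩ (hκ j) (hKj0 j) (hKj j) g)
      + (starRingEnd ℂ) p.2 • SH L hΩ hh hKh0 hKh g := by
    rw [hX]
    simp only [ContinuousLinearMap.add_apply, ContinuousLinearMap.smul_apply,
      ContinuousLinearMap.sum_apply]
  rw [e]
  have hj : ∀ᵐ z : ℂ, ∀ j, (SH L hΩ (hκ j) (hKj0 j) (hKj j) g : ℂ → ℂ) z =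
      Ω.indicator (fun z => (starRingEnd ℂ) (κ j z)) z * (T1 L g : ℂ → ℂ) z :=
    ae_all_iff.mpr fun j => SH_coe L hΩ (hκ j) (hKj0 j) (hKj j) g
  set W1 := ∑ j, (starRingEnd ℂ) (p.1 j) • SH L hΩ (hκ j) (hKj0 j) (hKj j) g with hW1
  have hsum := lp_sum Finset.univ (fun j => (starRingEnd ℂ) (p.1 j))
    (fun j => SH L hΩ (hκ j) (hKj0 j) (hKj j) g)
  apply Lp.ext
  filter_upwards [SH_coe L hΩ hd hK0 hK g, hj, hsum, SH_coe L hΩ hk hKk0 hKk g, SH_coe L hΩ hh hKh0 hKh g,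
    Lp.coeFn_add (SH L hΩ hk hKk0 hKk g + W1) ((starRingEnd ℂ) p.2 • SH L hΩ hh hKh0 hKh g),
    Lp.coeFn_add (SH L hΩ hk hKk0 hKk g) W1,
    Lp.coeFn_smul ((starRingEnd ℂ) p.2) (SH L hΩ hh hKh0 hKh g)]
    with z k1 k2 k3 k4 k5 k6 k7 k8
  rw [k6, Pi.add_apply, k7, Pi.add_apply, k8, Pi.smul_apply, k4, k5, k3, k1, smul_eq_mul]
  simp only [k2]
  by_cases hz : z ∈ Ω
  · simp only [indicator_of_mem hz]
    rw [map_add, map_add, map_mul, map_sum]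
    simp only [map_mul]
    rw [add_mul, add_mul, Finset.sum_mul]
    have : ∀ j, (starRingEnd ℂ) (p.1 j) * ((starRingEnd ℂ) (κ j z) * (T1 L g : ℂ → ℂ) z) =
        (starRingEnd ℂ) (p.1 j) * (starRingEnd ℂ) (κ j z) * (T1 L g : ℂ → ℂ) z := fun j => by ring
    simp only [this]
    ring
  · simp only [indicator_of_notMem hz]
    simp

end Pool.Agent.Y549.OD.FUN
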