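import Mathlib

set_option autoImplicit false
set_option linter.unusedSectionVars false

/-! The characteristic values of a compact operator are isolated.

Helper145 (job OD-ISO of helper549). -/

namespace Pool.Agent.Y549.OD.ISO

section

open Module End Filter Topology InnerProductSpace

variable {H : Type*} [NormedAddCommGroup H] [InnerProductSpace ℂ H] [CompleteSpace H]
  {S : H →L[ℂ] H}

/-- only finitely many eigenvalues are large -/
theorem seq (hS : IsCompactOperator S) (μ : ℕ → ℂ) (hμ : Function.Injective μ) (f : ℕ → H)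
    (hf : ∀ n, HasEigenvector (S : End ℂ H) (μ n) (f n)) (δ : ℝ) (hδ : 0 < δ)
    (hd : ∀ n, δ ≤ ‖μ n‖) : False := by
  have hli : LinearIndependent ℂ f := eigenvectors_linearIndependent' _ μ hμ f hf
  have hSf : ∀ n, S (f n) = μ n • f n := fun n => (hf n).apply_eq_smul
  set e : ℕ → H := gramSchmidtNormed ℂ f with he
  have he1 : ∀ n, ‖e n‖ = 1 := fun n => gramSchmidtNormed_unit_length n hli
  have hemem : ∀ n, e n ∈ Submodule.span ℂ (f '' Set.Iic n) := fun n =>
    Submodule.smul_mem _ _ (gramSchmidt_mem_span ℂ f le_rfl)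
  have horth : ∀ n, ∀ x ∈ Submodule.span ℂ (f '' Set.Iio n), (inner ℂ (e n) x : ℂ) = 0 := by
    intro n x hx
    induction hx using Submodule.span_induction with
    | mem x hx =>
      obtain ⟨j, hj, rfl⟩ := hx
      rw [he]
      unfold gramSchmidtNormed
      rw [inner_smul_left, gramSchmidt_inv_triangular ℂ f hj, mul_zero]
    | zero => exact inner_zero_right _
    | add x y _ _ hx hy => rw [inner_add_right, hx, hy, add_zero]
    | smul a x _ hx => rw [inner_smul_right, hx, mul_zero]
  have hsub : ∀ n, ∀ x ∈ Submodule.span ℂ (f '' Set.Iic n),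
      S x - μ n • x ∈ Submodule.span ℂ (f '' Set.Iio n) := by
    intro n x hx
    induction hx using Submodule.span_induction with
    | mem x hx =>
      obtain ⟨j, hj, rfl⟩ := hx
      rw [hSf, ← sub_smul]
      rcases lt_or_eq_of_le (show j ≤ n from hj) with h | h
      · exact Submodule.smul_mem _ _ (Submodule.subset_span ⟨j, h, rfl⟩)
      · rw [h, sub_self, zero_smul]
        exact Submodule.zero_mem _
    | zero => rw [map_zero, smul_zero, sub_zero]; exact Submodule.zero_mem _
    | add x y _ _ hx hy =>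
      have : S (x + y) - μ n • (x + y) = (S x - μ n • x) + (S y - μ n • y) := by
        rw [map_add, smul_add]; abel
      rw [this]
      exact Submodule.add_mem _ hx hy
    | smul a x _ hx =>
      have : S (a • x) - μ n • (a • x) = a • (S x - μ n • x) := by
        rw [map_smul, smul_sub, smul_comm]
      rw [this]
      exact Submodule.smul_mem _ _ hx
  have hinv : ∀ m n, m < n → ∀ x ∈ Submodule.span ℂ (f '' Set.Iic m),
      S x ∈ Submodule.span ℂ (f '' Set.Iio n) := by
    intro m n hmn x hx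
    induction hx using Submodule.span_induction with
    | mem x hx =>
      obtain ⟨j, hj, rfl⟩ := hx
      rw [hSf]
      exact Submodule.smul_mem _ _ (Submodule.subset_span ⟨j, lt_of_le_of_lt hj hmn, rfl⟩)
    | zero => rw [map_zero]; exact Submodule.zero_mem _
    | add x y _ _ hx hy => rw [map_add]; exact Submodule.add_mem _ hx hy
    | smul a x _ hx => rw [map_smul]; exact Submodule.smul_mem _ _ hx
  have hdist : ∀ m n, m < n → δ ≤ ‖S (e n) - S (e m)‖ := by
    intro m n hmn
    have h1 : (inner ℂ (e n) (S (e n) - S (e m)) : ℂ) = μ n := by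
      have h2 : S (e n) - S (e m) = μ n • e n + (S (e n) - μ n • e n) - S (e m) := by abel
      rw [h2, inner_sub_right, inner_add_right, horth n _ (hsub n _ (hemem n)),
        horth n _ (hinv m n hmn _ (hemem m)), inner_smul_right, inner_self_eq_norm_sq_to_K, he1]
      simp
    calc δ ≤ ‖μ n‖ := hd n
      _ = ‖(inner ℂ (e n) (S (e n) - S (e m)) : ℂ)‖ := by rw [h1]
      _ ≤ ‖e n‖ * ‖S (e n) - S (e m)‖ := norm_inner_le_norm _ _
      _ = ‖S (e n) - S (e m)‖ := by rw [he1, one_mul]
  have hcomp := hS.isCompact_closure_image_closedBall 1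
  obtain ⟨a, -, φ, hφ, hlim⟩ := hcomp.tendsto_subseq (x := fun n => S (e n)) (fun n =>
    subset_closure ⟨e n, by rw [mem_closedBall_zero_iff, he1], rfl⟩)
  obtain ⟨N, hN⟩ := Metric.cauchySeq_iff.1 hlim.cauchySeq δ hδ
  have h1 := hN (N + 1) (by omega) N le_rfl
  rw [dist_eq_norm] at h1
  exact absurd h1 (not_lt.2 (hdist _ _ (hφ (Nat.lt_succ_self N))))

theorem unit_of_res {w : ℂ} (hw : w ≠ 0) (h : w⁻¹ ∈ resolventSet ℂ S) : IsUnit (1 - w • S) := by
  rw [spectrum.mem_resolventSet_iff] at h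
  have h1 : (1 - w • S) = algebraMap ℂ (H →L[ℂ] H) w * (algebraMap ℂ (H →L[ℂ] H) w⁻¹ - S) := by
    rw [mul_sub, ← map_mul, mul_inv_cancel₀ hw, map_one, Algebra.smul_def]
  rw [h1]
  exact ((IsUnit.mk0 w hw).map (algebraMap ℂ (H →L[ℂ] H))).mul h

end

open Filter Topology InnerProductSpace in
/-- the characteristic values of a compact operator are isolated -/
theorem iso {H : Type*} [NormedAddCommGroup H] [InnerProductSpace ℂ H] [CompleteSpace H]
    {S : H →L[ℂ] H} (hS : IsCompactOperator S) {w0 : ℂ} (hw0 : w0 ≠ 0) :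
    ∃ r : ℝ, 0 < r ∧ ∀ w : ℂ, w ≠ w0 → ‖w - w0‖ ≤ r → IsUnit (1 - w • S) := by
  have hn0 : 0 < ‖w0‖ := norm_pos_iff.2 hw0
  set B : Set ℂ := {w | ‖w - w0‖ ≤ ‖w0‖ / 2 ∧ ¬ IsUnit (1 - w • S)} with hB
  have hne : ∀ w ∈ B, w ≠ 0 := by
    rintro w ⟨hw, -⟩ rfl
    rw [zero_sub, norm_neg] at hw
    linarith
  have hfin : B.Finite := by
    by_contra hinf
    have hinf : B.Infinite := hinf
    let ι := hinf.natEmbedding B
    have hev : ∀ n, ∃ f, Module.End.HasEigenvector (S : Module.End ℂ H) ((ι n : ℂ)⁻¹) f := by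
      intro n
      have h0 := hne _ (ι n).2
      rcases hS.hasEigenvalue_or_mem_resolventSet (inv_ne_zero h0) with h | h
      · exact h.exists_hasEigenvector
      · exact absurd (unit_of_res h0 h) (ι n).2.2
    choose f hf using hev
    refine seq hS (fun n => ((ι n : ℂ)⁻¹)) (fun a b hab => ?_) f hf (3 / 2 * ‖w0‖)⁻¹
      (by positivity) (fun n => ?_)
    · exact ι.injective (Subtype.ext (inv_injective hab))
    · rw [norm_inv]
      have h1 := (ι n).2.1
      have h2 : ‖(ι n : ℂ)‖ ≤ 3 / 2 * ‖w0‖ := by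
        have h3 : (ι n : ℂ) = ((ι n : ℂ) - w0) + w0 := by ring
        have h4 := norm_add_le ((ι n : ℂ) - w0) w0
        rw [← h3] at h4
        linarith
      exact inv_anti₀ (norm_pos_iff.2 (hne _ (ι n).2)) h2
  have hcl : IsClosed (B \ {w0}) := (hfin.subset Set.sdiff_subset).isClosed
  have hmem : w0 ∈ (B \ {w0})ᶜ := fun h => h.2 rfl
  obtain ⟨ε, hε, hball⟩ := Metric.isOpen_iff.1 hcl.isOpen_compl w0 hmem
  refine ⟨min (ε / 2) (‖w0‖ / 2), by positivity, fun w hw hwr => ?_⟩
  by_contra hcon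
  have h1 : ‖w - w0‖ ≤ ε / 2 := hwr.trans (min_le_left _ _)
  have h2 : ‖w - w0‖ ≤ ‖w0‖ / 2 := hwr.trans (min_le_right _ _)
  refine hball ?_ ⟨⟨h2, hcon⟩, hw⟩
  rw [mem_ball_iff_norm]
  linarith

end Pool.Agent.Y549.OD.ISO
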