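import Mathlib
set_option autoImplicit false
namespace Pool.Agent.Y549.OD.STAB
/-- a nonzero isolated eigenvalue is stable under compact perturbations of small norm -/
theorem stab {H : Type*} [NormedAddCommGroup H] [InnerProductSpace ℂ H] [CompleteSpace H] {S : H →L[ℂ] H}
    {lam : ℂ} (hlam : lam ≠ 0) {f : H} (hf : f ≠ 0) (he : S f = lam • f)
    (hiso : ∃ r : ℝ, 0 < r ∧ ∀ w : ℂ, w ≠ lam⁻¹ → ‖w - lam⁻¹‖ ≤ r → IsUnit (1 - w • S)) :
    ∃ ε : ℝ, 0 < ε ∧ ∀ K : H →L[ℂ] H, IsCompactOperator K → ‖K - S‖ ≤ ε →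
      ∃ nu : ℂ, nu ≠ 0 ∧ ∃ g : H, g ≠ 0 ∧ K g = nu • g := by
  obtain ⟨r, hr, hiso⟩ := hiso
  have hunitS : ∀ w ∈ Metric.sphere (lam⁻¹ : ℂ) r, IsUnit (1 - w • S) := by
    intro w hw
    rw [mem_sphere_iff_norm] at hw
    refine hiso w ?_ hw.le
    rintro rfl
    rw [sub_self, norm_zero] at hw
    exact hr.ne hw
  have hdi : ∀ (A : H →L[ℂ] H) (w : ℂ), IsUnit (1 - w • A) →
      DifferentiableAt ℂ (fun w : ℂ => Ring.inverse (1 - w • A)) w := by
    intro A w hu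
    have H₁ : Differentiable ℂ fun w : ℂ => 1 - w • A :=
      (differentiable_id.smul_const A).const_sub 1
    exact DifferentiableAt.comp w (differentiableAt_inverse hu) H₁.differentiableAt
  have hM : ∃ M : ℝ, 0 < M ∧ ∀ w ∈ Metric.sphere (lam⁻¹ : ℂ) r, ∀ x : H,
      ‖x‖ ≤ M * ‖(1 - w • S) x‖ := by
    have hcont : ContinuousOn (fun w : ℂ => Ring.inverse (1 - w • S))
        (Metric.sphere (lam⁻¹ : ℂ) r) :=
      fun w hw => (hdi S w (hunitS w hw)).continuousAt.continuousWithinAt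
    obtain ⟨M, hM⟩ := (isCompact_sphere (lam⁻¹ : ℂ) r).exists_bound_of_continuousOn hcont
    refine ⟨max M 1, lt_of_lt_of_le one_pos (le_max_right _ _), fun w hw x => ?_⟩
    have h2 : Ring.inverse (1 - w • S) * (1 - w • S) = 1 :=
      Ring.inverse_mul_cancel _ (hunitS w hw)
    calc ‖x‖ = ‖(Ring.inverse (1 - w • S) * (1 - w • S)) x‖ := by rw [h2]; rfl
      _ = ‖Ring.inverse (1 - w • S) ((1 - w • S) x)‖ := rfl
      _ ≤ ‖Ring.inverse (1 - w • S)‖ * ‖(1 - w • S) x‖ := ContinuousLinearMap.le_opNorm _ _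
      _ ≤ max M 1 * ‖(1 - w • S) x‖ :=
        mul_le_mul_of_nonneg_right ((hM w hw).trans (le_max_left _ _)) (norm_nonneg _)
  obtain ⟨M, hM0, hM⟩ := hM
  obtain ⟨ε, hε0, hε⟩ : ∃ ε : ℝ, 0 < ε ∧ M * (‖lam⁻¹‖ + r + 1) * ε = 1 / 4 := by
    have hR : 0 < ‖lam⁻¹‖ + r + 1 := by positivity
    exact ⟨1 / (4 * (M * (‖lam⁻¹‖ + r + 1))), by positivity, by field_simp⟩
  refine ⟨ε, hε0, fun K hK hKS => ?_⟩
  by_contra hcon
  push Not at hcon
  have hunit : ∀ w : ℂ, IsUnit (1 - w • K) := by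
    intro w
    by_cases hw : w = 0
    · rw [hw, zero_smul, sub_zero]
      exact isUnit_one
    · rcases hK.hasEigenvalue_or_mem_resolventSet (inv_ne_zero hw) with h | h
      · exfalso
        obtain ⟨g, hg⟩ := h.exists_hasEigenvector
        exact hcon _ (inv_ne_zero hw) g hg.2 hg.apply_eq_smul
      · have h1 : IsUnit (algebraMap ℂ (H →L[ℂ] H) w⁻¹ - K) := h
        have h2 : 1 - w • K = algebraMap ℂ (H →L[ℂ] H) w * (algebraMap ℂ (H →L[ℂ] H) w⁻¹ - K) := by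
          rw [← Algebra.smul_def, smul_sub, Algebra.algebraMap_eq_smul_one, smul_smul,
            mul_inv_cancel₀ hw, one_smul]
        rw [h2]
        exact ((IsUnit.mk0 w hw).map (algebraMap ℂ (H →L[ℂ] H))).mul h1
  set v : H := (1 - lam⁻¹ • K) f with hv
  have hG : ∀ w : ℂ, (1 - w • K) (Ring.inverse (1 - w • K) v) = v := by
    intro w
    have h2 : (1 - w • K) * Ring.inverse (1 - w • K) = 1 := Ring.mul_inverse_cancel _ (hunit w)
    exact congrArg (fun A : H →L[ℂ] H => A v) h2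
  have hG0 : Ring.inverse (1 - lam⁻¹ • K) v = f := by
    have h2 : Ring.inverse (1 - lam⁻¹ • K) * (1 - lam⁻¹ • K) = 1 :=
      Ring.inverse_mul_cancel _ (hunit _)
    exact congrArg (fun A : H →L[ℂ] H => A f) h2
  have hMε : 0 ≤ M * ε := by positivity
  have hbound : ∀ w ∈ Metric.sphere (lam⁻¹ : ℂ) r,
      ‖Ring.inverse (1 - w • K) v‖ ≤ 2 * M * ‖v‖ := by
    intro w hw
    set g : H := Ring.inverse (1 - w • K) v with hg
    have h1 := hM w hw g
    have h2 : (1 - w • S) g = v + w • ((K - S) g) := by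
      rw [← hG w, ← hg]
      simp only [ContinuousLinearMap.sub_apply, ContinuousLinearMap.smul_apply,
        ContinuousLinearMap.one_apply, smul_sub]
      abel
    have h3 : ‖w‖ ≤ ‖lam⁻¹‖ + r := by
      rw [mem_sphere_iff_norm] at hw
      calc ‖w‖ = ‖lam⁻¹ + (w - lam⁻¹)‖ := by congr 1; ring
        _ ≤ ‖lam⁻¹‖ + ‖w - lam⁻¹‖ := norm_add_le _ _
        _ = ‖lam⁻¹‖ + r := by rw [hw]
    have h4 : ‖(K - S) g‖ ≤ ε * ‖g‖ :=
      ((K - S).le_opNorm g).trans (mul_le_mul_of_nonneg_right hKS (norm_nonneg _))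
    have h5 : ‖(1 - w • S) g‖ ≤ ‖v‖ + (‖lam⁻¹‖ + r) * (ε * ‖g‖) := by
      rw [h2]
      refine (norm_add_le _ _).trans (add_le_add le_rfl ?_)
      rw [norm_smul]
      exact mul_le_mul h3 h4 (norm_nonneg _) (by positivity)
    have h6 : ‖g‖ ≤ M * ‖v‖ + (M * (‖lam⁻¹‖ + r) * ε) * ‖g‖ := by
      refine (h1.trans (mul_le_mul_of_nonneg_left h5 hM0.le)).trans (le_of_eq ?_)
      ring
    have h7 : M * (‖lam⁻¹‖ + r) * ε ≤ 1 / 4 := by
      rw [← hε]
      nlinarith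
    have h8 := mul_le_mul_of_nonneg_right h7 (norm_nonneg g)
    have h9 : 0 ≤ M * ‖v‖ := by positivity
    linarith
  have hdiff : DiffContOnCl ℂ (fun w : ℂ => Ring.inverse (1 - w • K) v)
      (Metric.ball (lam⁻¹ : ℂ) r) := by
    refine Differentiable.diffContOnCl fun w => ?_
    exact (hdi K w (hunit w)).clm_apply (differentiableAt_const v)
  have hmax := Complex.norm_le_of_forall_mem_frontier_norm_le Metric.isBounded_ball hdiff
    (C := 2 * M * ‖v‖) (by rw [frontier_ball _ hr.ne']; exact hbound)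
    (subset_closure (Metric.mem_ball_self hr))
  simp only [hG0] at hmax
  have hv2 : v = lam⁻¹ • ((S - K) f) := by
    rw [hv]
    simp only [ContinuousLinearMap.sub_apply, ContinuousLinearMap.smul_apply,
      ContinuousLinearMap.one_apply, smul_sub, he]
    rw [smul_smul, inv_mul_cancel₀ hlam, one_smul]
  have hv3 : ‖v‖ ≤ ‖lam⁻¹‖ * (ε * ‖f‖) := by
    rw [hv2, norm_smul]
    refine mul_le_mul_of_nonneg_left ?_ (norm_nonneg _)
    refine ((S - K).le_opNorm f).trans (mul_le_mul_of_nonneg_right ?_ (norm_nonneg _))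
    rw [norm_sub_rev]
    exact hKS
  have hf0 : 0 < ‖f‖ := norm_pos_iff.2 hf
  have h10 : 2 * M * ‖v‖ ≤ 2 * M * (‖lam⁻¹‖ * (ε * ‖f‖)) :=
    mul_le_mul_of_nonneg_left hv3 (by positivity)
  have h11 : M * ‖lam⁻¹‖ * ε ≤ 1 / 4 := by
    rw [← hε]
    nlinarith
  have h12 := mul_le_mul_of_nonneg_right h11 hf0.le
  nlinarith
end Pool.Agent.Y549.OD.STAB
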